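import Pool.Agent.Helper80.SI.StN

set_option autoImplicit false

namespace Pool.Agent.Helper63.SI

open Pool.Agent.Helper99.SI Pool.Agent.Helper80.SI Filter Topology

theorem hN11 (h1 : StA0) (h2 : StA8) (h3 : StK2) (h4 : StK3) (h5 : StN10) : StN11 := by
  classical
  intro n L _ _ _ _ _ D X0 m s t z c hM ht hk hc
  obtain ⟨K1, hK1⟩ := h5 n L D m c 1 hc
  obtain ⟨K2, hK2⟩ := h5 n L D m c (Ht D (t : ℂ)) hc
  obtain ⟨c0, hband⟩ := hM.band
  obtain ⟨-, tadd, tsmul, -⟩ := h3 n L D c hc
  obtain ⟨ttr, -⟩ := h4 n L D c hc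
  have ht0 : (t : ℂ) ≠ 0 := by exact_mod_cast ht.ne'
  set τ : L →ₗ[ℂ] ℂ :=
    { toFun := D.tau c
      map_add' := tadd
      map_smul' := fun a y => by simpa using tsmul a y } with hτ
  have τd : ∀ y, D.tau c y = τ y := fun _ => rfl
  set P : Idx n m.r → L := m.piT D t with hP
  set H : L := Ht D (t : ℂ) with hH
  set K := max K1 K2 with hK
  have z1 : ∀ i, K < ilen i → τ (P i) = 0 := by
    intro i hi
    have := hK1 t i (lt_of_le_of_lt (le_max_left _ _) hi)
    rwa [mul_one] at this
  have z2 : ∀ i, K < ilen i → τ (P i * H) = 0 := fun i hi =>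
    hK2 t i (lt_of_le_of_lt (le_max_right _ _) hi)
  have hterm : ∀ i, D.tau c (P i * (1 - (s : ℂ) • H)) = τ (P i) - s * τ (P i * H) := by
    intro i
    rw [τd, mul_sub, mul_one, mul_smul_comm, map_sub, map_smul, smul_eq_mul]
  set T : Finset (Idx n m.r) := (fin_ilen (n := n) (r := m.r) K).toFinset with hT
  set T' : Finset (Idx n m.r) := (fin_ilen (n := n) (r := m.r) (K + c0)).toFinset with hT'
  have memT : ∀ i, i ∈ T ↔ ilen i ≤ K := by intro i; simp [hT]
  have memT' : ∀ i, i ∈ T' ↔ ilen i ≤ K + c0 := by intro i; simp [hT']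
  have hsub : T ⊆ T' := by
    intro i hi
    rw [memT] at hi
    rw [memT']
    omega
  have hfs : ∑ᶠ i : Idx n m.r, z i * D.tau c (P i * (1 - (s : ℂ) • H)) =
      ∑ i ∈ T, z i * D.tau c (P i * (1 - (s : ℂ) • H)) := by
    apply finsum_eq_sum_of_support_subset
    intro i hi
    rw [Function.mem_support] at hi
    rw [Finset.mem_coe, memT]
    by_contra hcon
    apply hi
    rw [hterm, z1 i (not_le.1 hcon), z2 i (not_le.1 hcon)]
    simp
  rw [hfs]
  have hker : ∀ i ∈ T, z i = s * ∑ i' ∈ T', m.Fc t i' i * z i' := by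
    intro i hi
    rw [hk i]
    congr 1
    apply finsum_eq_sum_of_support_subset
    intro i' hi'
    rw [Function.mem_support] at hi'
    rw [Finset.mem_coe, memT']
    rw [memT] at hi
    have hF : m.Fc t i' i ≠ 0 := left_ne_zero_of_mul hi'
    have : ∃ j ∈ m.Z, m.F j i' i ≠ 0 := by
      by_contra hcon
      push Not at hcon
      apply hF
      unfold MData.Fc
      rw [Finsupp.finsetSum_apply]
      apply Finset.sum_eq_zero
      intro j hj
      rw [Finsupp.smul_apply, hcon j hj, smul_zero]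
    obtain ⟨j, -, hj⟩ := this
    have := hband j i' i hj
    omega
  have hcol : ∀ i', ∑ i ∈ T, m.Fc t i' i * τ (P i) = τ (P i' * H) := by
    intro i'
    have e1 : m.piV D t (m.Fc t i') = D.Phi t (P i') := by
      have := hM.fpi t ht (Finsupp.single i' 1)
      unfold MData.Fl MData.piV at this
      rw [Finsupp.linearCombination_single, one_smul, Finsupp.linearCombination_single,
        one_smul] at this
      exact this
    have e2 : τ (m.piV D t (m.Fc t i')) = ∑ i ∈ T, m.Fc t i' i * τ (P i) := by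
      unfold MData.piV
      rw [Finsupp.linearCombination_apply, Finsupp.sum, map_sum]
      have : ∀ i ∈ (m.Fc t i').support, τ (m.Fc t i' i • m.piT D t i) =
          m.Fc t i' i * τ (P i) := by
        intro i _
        rw [map_smul, smul_eq_mul]
      rw [Finset.sum_congr rfl this]
      have u1 : ∑ i ∈ (m.Fc t i').support, m.Fc t i' i * τ (P i) =
          ∑ i ∈ (m.Fc t i').support ∪ T, m.Fc t i' i * τ (P i) := by
        apply Finset.sum_subset Finset.subset_union_left
        intro i _ hi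
        rw [Finsupp.notMem_support_iff.1 hi, zero_mul]
      have u2 : ∑ i ∈ T, m.Fc t i' i * τ (P i) =
          ∑ i ∈ (m.Fc t i').support ∪ T, m.Fc t i' i * τ (P i) := by
        apply Finset.sum_subset Finset.subset_union_right
        intro i _ hi
        rw [memT, not_le] at hi
        rw [z1 i hi, mul_zero]
      rw [u1, u2]
    rw [← e2, e1, (h2 n L D (t : ℂ) 1 (P i') ht0).1 (P i'), map_sum]
    have e3 : ∀ j, τ (star (D.x j) * P i' * D.b.ev (t : ℂ) (D.x j)) =
        τ (P i' * (D.b.ev (t : ℂ) (D.x j) * star (D.x j))) := by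
      intro j
      rw [mul_assoc]
      have := ttr (star (D.x j)) (P i' * D.b.ev (t : ℂ) (D.x j))
      rw [τd, τd] at this
      rw [this, mul_assoc]
    rw [Finset.sum_congr rfl fun j _ => e3 j, ← map_sum, ← Finset.mul_sum]
    rfl
  have s1 : ∑ i ∈ T, z i * D.tau c (P i * (1 - (s : ℂ) • H)) =
      ∑ i ∈ T, z i * τ (P i) - s * ∑ i ∈ T, z i * τ (P i * H) := by
    rw [Finset.mul_sum, ← Finset.sum_sub_distrib]
    apply Finset.sum_congr rfl
    intro i _
    rw [hterm]
    ring
  have s2 : ∑ i ∈ T, z i * τ (P i * H) = ∑ i ∈ T', z i * τ (P i * H) := by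
    apply Finset.sum_subset hsub
    intro i _ hi
    rw [memT, not_le] at hi
    rw [z2 i hi, mul_zero]
  have s3 : ∑ i ∈ T, z i * τ (P i) = s * ∑ i ∈ T', z i * τ (P i * H) := by
    have a1 : ∀ i ∈ T, z i * τ (P i) = ∑ i' ∈ T', s * (z i' * (m.Fc t i' i * τ (P i))) := by
      intro i hi
      conv_lhs => rw [hker i hi]
      rw [Finset.mul_sum, Finset.sum_mul]
      apply Finset.sum_congr rfl
      intro i' _
      ring
    rw [Finset.sum_congr rfl a1, Finset.sum_comm, Finset.mul_sum]
    apply Finset.sum_congr rfl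
    intro i' _
    rw [← Finset.mul_sum, ← Finset.mul_sum, hcol i']
  rw [s1, s2, s3, sub_self]

end Pool.Agent.Helper63.SI
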